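import Pool.Agent.H947R2.TP.Stubs

set_option autoImplicit false

namespace H947TP

/-- Between a proper subgroup and a finite commutative group there is a subgroup of prime index. -/
theorem A1a_prime_step {X : Type} [CommGroup X] [Finite X] (K B : Subgroup X) (hKB : K ≤ B)
    (hne : K ≠ B) : ∃ B' : Subgroup X, B' ≤ B ∧ K ≤ B' ∧ (B'.relIndex B).Prime := by
  obtain ⟨B', hmax⟩ := Set.Finite.exists_maximal (Set.toFinite {H : Subgroup X | K ≤ H ∧ H < B})
    ⟨K, le_rfl, lt_of_le_of_ne hKB hne⟩
  have h1 : K ≤ B' := hmax.prop.1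
  have h2 : B' < B := hmax.prop.2
  refine ⟨B', h2.le, h1, ?_⟩
  have hsimple : IsSimpleGroup (B ⧸ B'.subgroupOf B) := by
    have hnt : Nontrivial (B ⧸ B'.subgroupOf B) := by
      rw [QuotientGroup.nontrivial_iff]
      intro htop
      rw [Subgroup.subgroupOf_eq_top] at htop
      exact absurd htop (not_le_of_gt h2)
    refine { hnt with eq_bot_or_eq_top_of_normal := fun H _ => ?_ }
    have hle : B' ≤ (H.comap (QuotientGroup.mk' (B'.subgroupOf B))).map B.subtype := by
      intro x hx
      refine Subgroup.mem_map.mpr ⟨⟨x, h2.le hx⟩, ?_, rfl⟩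
      rw [Subgroup.mem_comap]
      have : QuotientGroup.mk' (B'.subgroupOf B) ⟨x, h2.le hx⟩ = 1 := by
        rw [QuotientGroup.mk'_apply, QuotientGroup.eq_one_iff]
        exact Subgroup.mem_subgroupOf.mpr hx
      rw [this]
      exact H.one_mem
    have hle2 : (H.comap (QuotientGroup.mk' (B'.subgroupOf B))).map B.subtype ≤ B := by
      rintro x hx
      obtain ⟨y, -, rfl⟩ := Subgroup.mem_map.mp hx
      exact y.2
    rcases hle2.eq_or_lt with heq | hlt
    · right
      rw [eq_top_iff]
      intro z _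
      obtain ⟨y, rfl⟩ := QuotientGroup.mk'_surjective _ z
      have hy : (y : X) ∈ (H.comap (QuotientGroup.mk' (B'.subgroupOf B))).map B.subtype := by
        rw [heq]; exact y.2
      obtain ⟨w, hw, hwy⟩ := Subgroup.mem_map.mp hy
      have : w = y := Subtype.ext hwy
      rw [this] at hw
      exact hw
    · left
      have h3 := hmax.le_of_ge (y := (H.comap (QuotientGroup.mk' (B'.subgroupOf B))).map B.subtype)
        ⟨h1.trans hle, hlt⟩ hle
      rw [eq_bot_iff]
      intro z hz
      obtain ⟨y, rfl⟩ := QuotientGroup.mk'_surjective _ z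
      have hy : (y : X) ∈ B' := h3 (Subgroup.mem_map.mpr ⟨y, hz, rfl⟩)
      rw [Subgroup.mem_bot, QuotientGroup.mk'_apply, QuotientGroup.eq_one_iff]
      exact Subgroup.mem_subgroupOf.mpr hy
  have := IsSimpleGroup.prime_card (α := B ⧸ B'.subgroupOf B)
  exact this

/-- second alternative, from a subgroup containing all quotients of zeros -/
theorem A1a_second {X : Type} [CommGroup X] [Finite X] (c : X →* ℂˣ) (q : ℕ)
    (B : Subgroup X) (x0 : X) (hz : ∃ x ∈ B, c (x0 * x) ∈ Zq q) (K : Subgroup X) (hKB : K ≤ B)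
    (hcK : B ⊓ c.ker ≤ K) (hne : K ≠ B)
    (hK : ∀ x ∈ B, ∀ y ∈ B, c (x0 * x) ∈ Zq q → c (x0 * (x * y)) ∈ Zq q → y ∈ K) :
    ∃ B' : Subgroup X, B' ≤ B ∧ B ⊓ c.ker ≤ B' ∧ (B'.relIndex B).Prime ∧
    ∃ y ∈ B, ∀ x ∈ B', c (x0 * (y * x)) ∉ Zq q := by
  obtain ⟨B', h1, h2, h3⟩ := A1a_prime_step K B hKB hne
  refine ⟨B', h1, hcK.trans h2, h3, ?_⟩
  have hex : ∃ w ∈ B, w ∉ B' := by
    by_contra hcon
    push Not at hcon
    rw [Subgroup.relIndex_eq_one.mpr hcon] at h3
    exact Nat.not_prime_one h3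
  obtain ⟨w, hwB, hw⟩ := hex
  obtain ⟨z, hzB, hz⟩ := hz
  refine ⟨z * w, B.mul_mem hzB hwB, fun x hx hmem => hw ?_⟩
  have h4 : w * x ∈ K := hK z hzB (w * x) (B.mul_mem hwB (h1 hx)) hz (by rwa [← mul_assoc z w x])
  have h5 : w * x ∈ B' := h2 h4
  exact (B'.mul_mem_cancel_right hx).mp h5

theorem A1a_cardFactors_le {m q : ℕ} (hq : q ≠ 0) (h : m ∣ q) :
    ArithmeticFunction.cardFactors m ≤ ArithmeticFunction.cardFactors q := by
  obtain ⟨k, rfl⟩ := h
  have hm : m ≠ 0 := by rintro rfl; simp at hq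
  have hk : k ≠ 0 := by rintro rfl; simp at hq
  rw [ArithmeticFunction.cardFactors_mul hm hk]
  omega

theorem A1a_cardFactors_lt {m q : ℕ} (hq : q ≠ 0) (h : m ∣ q) (hne : m ≠ q) :
    ArithmeticFunction.cardFactors m + 1 ≤ ArithmeticFunction.cardFactors q := by
  obtain ⟨k, rfl⟩ := h
  have hm : m ≠ 0 := by rintro rfl; simp at hq
  have hk : k ≠ 0 := by rintro rfl; simp at hq
  have hk1 : k ≠ 1 := by rintro rfl; simp at hne
  rw [ArithmeticFunction.cardFactors_mul hm hk]
  have : 0 < ArithmeticFunction.cardFactors k :=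
    ArithmeticFunction.cardFactors_pos_iff_one_lt.mpr (by omega)
  omega

/-- Task A1a. -/
theorem A1a : St_A1a := by
  intro X _ _ c q hq B x0 hz
  have hmul : ∀ x y : X, c (x0 * (x * y)) = c (x0 * x) * c y := fun x y => by
    rw [← mul_assoc, map_mul]
  rcases hq with rfl | hq
  · -- `q = 0`
    have hZ : ∀ z : ℂˣ, z ∈ Zq 0 ↔ z = 1 := fun z => by simp [Zq]
    by_cases hK : B ⊓ c.ker = B
    · left
      obtain ⟨z, hzB, hz⟩ := hz
      have hker : ∀ x ∈ B, c x = 1 := fun x hx => by
        have : x ∈ B ⊓ c.ker := by rw [hK]; exact hx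
        exact this.2
      refine ⟨fun x hx => ?_, ?_⟩
      · rw [hZ] at hz ⊢
        rw [map_mul, hker z hzB] at hz
        rw [map_mul, hker x hx, hz]
      · rw [hK, Subgroup.relIndex_self]
        simp [wt]
    · right; left
      refine A1a_second c 0 B x0 hz (B ⊓ c.ker) inf_le_left le_rfl hK ?_
      intro x hx y hy h1 h2
      rw [hZ] at h1 h2
      rw [hmul, h1, one_mul] at h2
      exact ⟨hy, h2⟩
  · -- `q ≥ 2`
    have hq0 : q ≠ 0 := by omega
    have : NeZero q := ⟨hq0⟩
    have hZ : ∀ z : ℂˣ, z ∈ Zq q ↔ z ^ q = 1 ∧ z ≠ 1 := fun z => by simp [Zq, hq0]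
    have hwt : wt q = ArithmeticFunction.cardFactors q := by simp [wt, hq0]
    by_cases hBq : B ⊓ (c ^ q).ker = B
    · have hpow : ∀ x ∈ B, c x ^ q = 1 := fun x hx => by
        have : x ∈ B ⊓ (c ^ q).ker := by rw [hBq]; exact hx
        exact this.2
      obtain ⟨z, hzB, hz⟩ := hz
      have hx0 : c x0 ^ q = 1 := by
        have := ((hZ _).mp hz).1
        rw [map_mul, mul_pow, hpow z hzB, mul_one] at this
        exact this
      have hcard : (B ⊓ c.ker).relIndex B = Nat.card (B.map c) := by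
        rw [Subgroup.inf_relIndex_left, Subgroup.relIndex_ker]
      have hle : B.map c ≤ rootsOfUnity q ℂ := by
        intro u hu
        obtain ⟨x, hx, rfl⟩ := Subgroup.mem_map.mp hu
        rw [mem_rootsOfUnity]
        exact hpow x hx
      have hcq : Nat.card (rootsOfUnity q ℂ) = q := Complex.card_rootsOfUnity q
      have hdvd : Nat.card (B.map c) ∣ q := by
        have := Subgroup.card_dvd_of_le hle
        rwa [hcq] at this
      by_cases hy : ∃ y ∈ B, c (x0 * y) = 1
      · right; right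
        obtain ⟨y, hyB, hy⟩ := hy
        refine ⟨?_, ?_, y, hyB, ?_⟩
        · intro hK
          have hker : ∀ x ∈ B, c x = 1 := fun x hx => by
            have : x ∈ B ⊓ c.ker := by rw [hK]; exact hx
            exact this.2
          have h1 := ((hZ _).mp hz).2
          rw [map_mul, hker z hzB] at h1
          rw [map_mul, hker y hyB] at hy
          exact h1 hy
        · rw [hcard, hwt]
          exact A1a_cardFactors_le hq0 hdvd
        · intro x hx hmem
          have h1 := ((hZ _).mp hmem).2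
          rw [hmul, hy, one_mul] at h1
          exact h1 hx.2
      · left
        push Not at hy
        refine ⟨fun x hx => ?_, ?_⟩
        · rw [hZ]
          refine ⟨?_, hy x hx⟩
          rw [map_mul, mul_pow, hx0, hpow x hx, one_mul]
        · rw [hcard, hwt]
          refine A1a_cardFactors_lt hq0 hdvd ?_
          intro heq
          have h1 : B.map c = rootsOfUnity q ℂ := by
            exact Subgroup.eq_of_le_of_card_ge hle (by rw [hcq, heq])
          have h2 : (c x0)⁻¹ ∈ rootsOfUnity q ℂ := by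
            rw [mem_rootsOfUnity, inv_pow, hx0, inv_one]
          rw [← h1] at h2
          obtain ⟨x, hx, hx'⟩ := Subgroup.mem_map.mp h2
          refine hy x hx ?_
          rw [map_mul, hx', mul_inv_cancel]
    · right; left
      refine A1a_second c q B x0 hz (B ⊓ (c ^ q).ker) inf_le_left ?_ hBq ?_
      · intro x hx
        refine ⟨hx.1, ?_⟩
        have h1 : c x = 1 := hx.2
        have h3 : (c ^ q) x = 1 := by rw [MonoidHom.pow_apply, h1, one_pow]
        exact h3
      · intro x hx y hy h1 h2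
        rw [hZ] at h1 h2
        rw [hmul, mul_pow, h1.1, one_mul] at h2
        exact ⟨hy, h2.1⟩

end H947TP

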